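import Pool.Agent.RDO.Stmts

set_option autoImplicit false

open MeasureTheory Module Submodule
open scoped ENNReal Pointwise

namespace Pool.Agent.RDO.H60

theorem cos23 (θ : ℝ) : Real.cos (θ + 2 * Real.pi / 3) =
    Real.cos (θ + Real.pi / 3) - Real.cos θ := by
  have h1 : θ + 2 * Real.pi / 3 = θ + (Real.pi - Real.pi / 3) := by ring
  rw [h1, Real.cos_add, Real.cos_add, Real.cos_pi_sub, Real.sin_pi_sub, Real.cos_pi_div_three,
    Real.sin_pi_div_three]
  ring

theorem sin23 (θ : ℝ) : Real.sin (θ + 2 * Real.pi / 3) =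
    Real.sin (θ + Real.pi / 3) - Real.sin θ := by
  have h1 : θ + 2 * Real.pi / 3 = θ + (Real.pi - Real.pi / 3) := by ring
  rw [h1, Real.sin_add, Real.sin_add, Real.cos_pi_sub, Real.sin_pi_sub, Real.cos_pi_div_three,
    Real.sin_pi_div_three]
  ring

theorem ev23 (s θ : ℝ) : s • ev (θ + 2 * Real.pi / 3) = s • ev (θ + Real.pi / 3) - s • ev θ := by
  ext i
  fin_cases i
  · simp [ev, cos23, mul_sub]
  · simp [ev, sin23, mul_sub]

theorem isClosed_Un {n : ℕ} (c : Fin n → P2) : IsClosed (Un c) :=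
  isClosed_iUnion_of_finite fun _ => Metric.isClosed_closedBall

theorem meas_Zc {n : ℕ} (c : Fin n → P2) (k : P2 → Fin n) (hk : Near c k) (w : P2) :
    MeasurableSet (Zc c k w) := by
  have h1 : Measurable fun z : P2 => z + w := measurable_id.add_const w
  have h2 : Measurable fun z => c (k z) := (measurable_from_top (f := c)).comp hk.meas
  have h3 : MeasurableSet {z : P2 | dist (c (k z)) (c (k (z + w))) < 2} :=
    measurableSet_lt (h2.dist (h2.comp h1)) measurable_const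
  exact (isClosed_Un c).measurableSet.inter ((h1 (isClosed_Un c).measurableSet).inter h3)

theorem dist_le_one {n : ℕ} (c : Fin n → P2) (k : P2 → Fin n) (hk : Near c k) (z : P2)
    (hz : z ∈ Un c) : dist z (c (k z)) ≤ 1 := by
  obtain ⟨i, hi⟩ := Set.mem_iUnion.1 hz
  exact (hk.near z i).trans (Metric.mem_closedBall.1 hi)

theorem quad (m n : ℤ) (h : m ≠ 0 ∨ n ≠ 0) : 3 ≤ m ^ 2 + m * n + n ^ 2 ∨
    (m = 1 ∧ n = 0) ∨ (m = -1 ∧ n = 0) ∨ (m = 0 ∧ n = 1) ∨ (m = 0 ∧ n = -1) ∨
    (m = 1 ∧ n = -1) ∨ (m = -1 ∧ n = 1) := by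
  by_contra hc
  push Not at hc
  obtain ⟨h3, hc⟩ := hc
  have hn : n ^ 2 < 4 := by nlinarith [sq_nonneg (2 * m + n)]
  have hm : m ^ 2 < 4 := by nlinarith [sq_nonneg (2 * n + m)]
  have hn1 : n < 2 := by nlinarith
  have hn2 : -2 < n := by nlinarith
  have hm1 : m < 2 := by nlinarith
  have hm2 : -2 < m := by nlinarith
  interval_cases m <;> interval_cases n <;> simp_all

theorem norm_comb (s θ : ℝ) (m n : ℤ) :
    ‖(m : ℝ) • (s • ev θ) + (n : ℝ) • (s • ev (θ + Real.pi / 3))‖ ^ 2 =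
      s ^ 2 * ((m ^ 2 + m * n + n ^ 2 : ℤ) : ℝ) := by
  rw [EuclideanSpace.norm_sq_eq, Fin.sum_univ_two]
  simp only [ev, PiLp.add_apply, PiLp.smul_apply, smul_eq_mul, Real.norm_eq_abs, sq_abs]
  simp only [PiLp.toLp_apply, Matrix.cons_val_zero, Matrix.cons_val_one]
  rw [Real.cos_add, Real.sin_add, Real.cos_pi_div_three, Real.sin_pi_div_three]
  have h1 := Real.sin_sq_add_cos_sq θ
  have h3 : √3 ^ 2 = (3 : ℝ) := Real.sq_sqrt (by norm_num)
  push_cast
  have h2 : Real.sin θ ^ 2 = 1 - Real.cos θ ^ 2 := by linarith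
  ring_nf
  rw [h3, h2]
  ring

theorem lat : LatStmt := by
  intro n c k hk s θ hs
  set v1 := s • ev θ with hv1
  set v2 := s • ev (θ + Real.pi / 3) with hv2
  set v3 := s • ev (θ + 2 * Real.pi / 3) with hv3
  have hv : v3 = v2 - v1 := ev23 s θ
  have h3 : (0 : ℝ) < √3 := by positivity
  have hs0 : 0 < s := by
    by_contra h
    push Not at h
    nlinarith
  have hdet : (s * Real.cos θ) * (s * Real.sin (θ + Real.pi / 3)) -
      (s * Real.sin θ) * (s * Real.cos (θ + Real.pi / 3)) = √3 / 2 * s ^ 2 := by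
    rw [Real.cos_add, Real.sin_add, Real.cos_pi_div_three, Real.sin_pi_div_three]
    have h1 := Real.sin_sq_add_cos_sq θ
    have h2 : Real.sin θ ^ 2 = 1 - Real.cos θ ^ 2 := by linarith
    ring_nf
    rw [h2]
    ring
  obtain ⟨b, hb, hspan⟩ := Helper11_Rado.exists_basis (s * Real.cos θ) (s * Real.sin θ)
    (s * Real.cos (θ + Real.pi / 3)) (s * Real.sin (θ + Real.pi / 3)) (by
      rw [hdet]; positivity)
  rw [hdet, abs_of_pos (by positivity)] at hb
  set W := Un c \ (Zc c k v1 ∪ Zc c k v2 ∪ Zc c k v3) with hW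
  have hUnc : IsCompact (Un c) := isCompact_iUnion fun i => isCompact_closedBall _ _
  have hWm : MeasurableSet W := (isClosed_Un c).measurableSet.diff
    (((meas_Zc c k hk v1).union (meas_Zc c k hk v2)).union (meas_Zc c k hk v3))
  have hWb : Bornology.IsBounded W := hUnc.isBounded.subset Set.sdiff_subset
  obtain ⟨X, hXW, hXd, hXv⟩ := Helper11_Rado.exists_congruent_points b W hWm hWb
  have key : ∀ x ∈ W, ∀ y ∈ W, (y = x + v1 ∨ y = x + v2 ∨ y = x + v3) →
      2 ≤ dist (c (k x)) (c (k y)) := by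
    intro x hx y hy hxy
    by_contra hlt
    push Not at hlt
    rcases hxy with h | h | h
    · subst h; exact hx.2 (Or.inl (Or.inl ⟨hx.1, hy.1, hlt⟩))
    · subst h; exact hx.2 (Or.inl (Or.inr ⟨hx.1, hy.1, hlt⟩))
    · subst h; exact hx.2 (Or.inr ⟨hx.1, hy.1, hlt⟩)
  refine ⟨X, ?_, ?_⟩
  · intro x hx y hy hxy
    have hxW := hXW hx
    have hyW := hXW hy
    obtain ⟨m, q, h0, h1⟩ := hspan (y - x) (hXd y hy x hx)
    have hw : y - x = (m : ℝ) • v1 + (q : ℝ) • v2 := by
      ext i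
      fin_cases i
      · simpa [hv1, hv2, ev] using h0
      · simpa [hv1, hv2, ev] using h1
    have hne : m ≠ 0 ∨ q ≠ 0 := by
      by_contra h
      push Not at h
      rw [h.1, h.2] at hw
      simp at hw
      exact hxy (sub_eq_zero.1 hw).symm
    have hy' : y = x + ((m : ℝ) • v1 + (q : ℝ) • v2) := by rw [← hw]; abel
    rcases quad m q hne with hq | ⟨rfl, rfl⟩ | ⟨rfl, rfl⟩ | ⟨rfl, rfl⟩ | ⟨rfl, rfl⟩ | ⟨rfl, rfl⟩ |
      ⟨rfl, rfl⟩
    · have hd : 4 ≤ dist x y := by
        rw [dist_comm, dist_eq_norm, hw]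
        have h4 := norm_comb s θ m q
        rw [← hv1, ← hv2] at h4
        have h5 : (3 : ℝ) ≤ ((m ^ 2 + m * q + q ^ 2 : ℤ) : ℝ) := by exact_mod_cast hq
        have h6 : (16 : ℝ) ≤ s ^ 2 * 3 := by
          have h7 : √3 ^ 2 = (3 : ℝ) := Real.sq_sqrt (by norm_num)
          nlinarith [mul_self_le_mul_self (by norm_num : (0 : ℝ) ≤ 4) hs]
        have h8 : (4 : ℝ) ^ 2 ≤ ‖(m : ℝ) • v1 + (q : ℝ) • v2‖ ^ 2 := by
          rw [h4]
          calc (4 : ℝ) ^ 2 = 16 := by norm_num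
            _ ≤ s ^ 2 * 3 := h6
            _ ≤ _ := by gcongr
        exact le_of_sq_le_sq h8 (norm_nonneg _)
      have h1 := dist_le_one c k hk x hxW.1
      have h2 := dist_le_one c k hk y hyW.1
      have h3 := dist_triangle4 x (c (k x)) (c (k y)) y
      rw [dist_comm (c (k y)) y] at h3
      linarith
    · exact key x hxW y hyW (Or.inl (by rw [hy']; simp))
    · rw [dist_comm]
      exact key y hyW x hxW (Or.inl (by rw [hy']; simp))
    · exact key x hxW y hyW (Or.inr (Or.inl (by rw [hy']; simp)))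
    · rw [dist_comm]
      exact key y hyW x hxW (Or.inr (Or.inl (by rw [hy']; simp)))
    · rw [dist_comm]
      exact key y hyW x hxW (Or.inr (Or.inr (by rw [hy', hv]; push_cast; module)))
    · exact key x hxW y hyW (Or.inr (Or.inr (by rw [hy', hv]; push_cast; module)))
  · rw [hb] at hXv
    have h1 : Un c ⊆ W ∪ (Zc c k v1 ∪ Zc c k v2 ∪ Zc c k v3) := by
      intro z hz
      by_cases h : z ∈ Zc c k v1 ∪ Zc c k v2 ∪ Zc c k v3
      · exact Or.inr h
      · exact Or.inl ⟨hz, h⟩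
    calc volume (Un c) ≤ volume (W ∪ (Zc c k v1 ∪ Zc c k v2 ∪ Zc c k v3)) := measure_mono h1
      _ ≤ volume W + volume (Zc c k v1 ∪ Zc c k v2 ∪ Zc c k v3) := measure_union_le _ _
      _ ≤ volume W + (volume (Zc c k v1) + volume (Zc c k v2) + volume (Zc c k v3)) := by
          gcongr
          exact (measure_union_le _ _).trans (add_le_add_left (measure_union_le _ _) _)
      _ ≤ _ := by gcongr

end Pool.Agent.RDO.H60
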