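import Pool.Agent.RDO.Stmts

set_option autoImplicit false

open MeasureTheory Module Submodule
open scoped ENNReal Pointwise

namespace Pool.Agent.RDO.H60

theorem mai (hD : DscStmt) : MaiStmt := by
  intro n K a p d hd hK hm
  choose m hm using hm
  set c : Fin n → P2 := fun i => (2 / d) • m i with hc
  obtain ⟨S, hS, hv⟩ := hD n c
  have hd2 : (0 : ℝ) < 2 / d := by positivity
  have hball : ∀ i, K i ⊆ (d / 2) • Metric.closedBall (c i) 1 := by
    intro i x hx
    refine ⟨(2 / d) • x, ?_, ?_⟩
    · rw [Metric.mem_closedBall, hc]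
      simp only
      rw [dist_smul₀, Real.norm_of_nonneg hd2.le]
      have h1 := Metric.mem_closedBall.1 (hm i hx)
      calc 2 / d * dist x (m i) ≤ 2 / d * (d / 2) := by gcongr
        _ = 1 := by field_simp
    · simp only
      rw [smul_smul]
      rw [show d / 2 * (2 / d) = 1 by field_simp, one_smul]
  have hsub : (⋃ i, K i) ⊆ (d / 2) • Un c := by
    unfold Un
    rw [Set.smul_set_iUnion]
    exact Set.iUnion_mono hball
  have hUnc : IsCompact (Un c) := isCompact_iUnion fun i => isCompact_closedBall _ _
  have hvol : (volume (⋃ i, K i)).toReal ≤ (d / 2) ^ 2 * (volume (Un c)).toReal := by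
    have h1 : volume (⋃ i, K i) ≤ ENNReal.ofReal ((d / 2) ^ 2) * volume (Un c) := by
      refine (measure_mono hsub).trans_eq ?_
      rw [Measure.addHaar_smul, finrank_euclideanSpace, Fintype.card_fin,
        abs_of_nonneg (by positivity)]
    have h2 := ENNReal.toReal_mono (ENNReal.mul_ne_top ENNReal.ofReal_ne_top
      hUnc.measure_lt_top.ne) h1
    rwa [ENNReal.toReal_mul, ENNReal.toReal_ofReal (by positivity)] at h2
  have hdisj : (S : Set (Fin n)).Pairwise (fun i j => Disjoint (interior (K i)) (interior (K j))) := by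
    intro i hi j hj hij
    have h1 : ∀ i, interior (K i) ⊆ Metric.ball (m i) (d / 2) := fun i => by
      have h2 := interior_mono (hm i)
      rwa [interior_closedBall _ (by positivity)] at h2
    refine Set.disjoint_of_subset (h1 i) (h1 j) (Metric.ball_disjoint_ball ?_)
    have h3 := hS i hi j hj hij
    rw [hc] at h3
    simp only at h3
    rw [dist_smul₀, Real.norm_of_nonneg hd2.le] at h3
    have h4 : d * 2 ≤ d * (2 / d * dist (m i) (m j)) := by gcongr
    have h5 : d * (2 / d * dist (m i) (m j)) = 2 * dist (m i) (m j) := by field_simp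
    linarith
  refine ⟨S, hdisj, ?_⟩
  have hcard := Helper11_Rado.volume_biUnion_of_disjoint_interior K a
    (fun i => ⟨(hK i).1, (hK i).2.1, (hK i).2.2.1⟩) S hdisj
  refine le_trans ?_ hcard
  rcases isEmpty_or_nonempty (Fin n) with hn | ⟨⟨i₀⟩⟩
  · have h0 : (⋃ i, K i) = ∅ := Set.iUnion_of_empty _
    have h1 : S = ∅ := Finset.eq_empty_of_isEmpty S
    rw [h0, h1]
    simp
  · have ha : 0 ≤ a := by
      rw [← (hK i₀).2.2.1]; exact ENNReal.toReal_nonneg
    have hpi := Real.pi_pos
    calc 917 / 1000 * (a / (Real.pi * d ^ 2)) * (volume (⋃ i, K i)).toReal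
        ≤ 917 / 1000 * (a / (Real.pi * d ^ 2)) * ((d / 2) ^ 2 * (volume (Un c)).toReal) := by
          gcongr
      _ = a / (4 * Real.pi) * (917 / 1000 * (volume (Un c)).toReal) := by
          field_simp
          ring
      _ ≤ a / (4 * Real.pi) * (4 * Real.pi * S.card) := by gcongr
      _ = (S.card : ℝ) * a := by
          field_simp

end Pool.Agent.RDO.H60
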